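import Mathlib
import Pool.Agent.MVD.Stmts

/-!
# Squad MVD, row CTX (helper27): the identities S1, S2, S3 in all contexts.
-/

set_option autoImplicit false

namespace Pool.Agent.MVD.H27

open Pool.Agent.MVD Pool.Agent.Helper14_MV Pool.Agent.Helper2_MV

variable {β : FIC}

/-- The substitution of `0`, `3`, `2`, `5`. -/
def g4 (x y : ℕ) (T S : List ℕ) (c : ℕ) : List ℕ :=
  if c = 0 then [x] else if c = 3 then [y] else if c = 2 then T else if c = 5 then S else []

theorem ctx_pad {l l' : List ℕ} (h : RR β l l') (p r : List ℕ) :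
    RR β (p ++ (l ++ r)) (p ++ (l' ++ r)) :=
  (RR.refl p).append (h.append (RR.refl r))

theorem s1_sub (h : S1 β) (x y : ℕ) (T S : List ℕ) :
    RR β (x :: y :: (T ++ x :: (S ++ [y]))) (y :: x :: (T ++ x :: (S ++ [y]))) := by
  have h1 := RR.sub (g4 x y T S) h
  simpa [g4] using h1

theorem s2_sub (h : S2 β) (x y : ℕ) (T S : List ℕ) :
    RR β (x :: (T ++ x :: y :: (S ++ [y]))) (x :: (T ++ y :: x :: (S ++ [y]))) := by
  have h1 := RR.sub (g4 x y T S) h
  simpa [g4] using h1

theorem s3_sub (h : S3 β) (x y : ℕ) (T S : List ℕ) :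
    RR β (x :: (T ++ y :: (S ++ [x, y]))) (x :: (T ++ y :: (S ++ [y, x]))) := by
  have h1 := RR.sub (g4 x y T S) h
  simpa [g4] using h1

theorem ctx : CtxStmt := by
  intro β
  refine ⟨?_, ?_, ?_⟩
  · intro h p q u v hu hv
    by_cases huv : u = v
    · rw [huv]
      exact RR.refl _
    obtain ⟨s, t, rfl⟩ := List.append_of_mem hv
    rw [List.mem_append, List.mem_cons] at hu
    rcases hu with hu | hu | hu
    · obtain ⟨a, b, rfl⟩ := List.append_of_mem hu
      have h1 := ctx_pad (s1_sub h u v a b) p t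
      simpa using h1
    · exact absurd hu huv
    · obtain ⟨a, b, rfl⟩ := List.append_of_mem hu
      have h1 := ctx_pad (s1_sub h v u s a).symm p b
      simpa using h1
  · intro h p q u v hu hv
    obtain ⟨a, b, rfl⟩ := List.append_of_mem hu
    obtain ⟨s, t, rfl⟩ := List.append_of_mem hv
    have h1 := ctx_pad (s2_sub h u v b s) a t
    simpa using h1
  · intro h p q u v hu hv
    by_cases huv : u = v
    · rw [huv]
      exact RR.refl _
    obtain ⟨s, t, rfl⟩ := List.append_of_mem hv
    rw [List.mem_append, List.mem_cons] at hu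
    rcases hu with hu | hu | hu
    · obtain ⟨a, b, rfl⟩ := List.append_of_mem hu
      have h1 := ctx_pad (s3_sub h u v b t) a q
      simpa using h1
    · exact absurd hu huv
    · obtain ⟨a, b, rfl⟩ := List.append_of_mem hu
      have h1 := ctx_pad (s3_sub h v u a b).symm s q
      simpa using h1

end Pool.Agent.MVD.H27
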