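import Mathlib
import Pool.Agent.MVD.StmtsLoc

/-!
# Squad MVD, row TY3 (helper27): a letter with three occurrences in one block keeps its block.
-/

set_option autoImplicit false

namespace Pool.Agent.MVD.H27

open Pool.Agent.MVD Pool.Agent.Helper14_MV Pool.Agent.Helper2_MV

/-- The projection to `c` and the separator of `s`, which is replaced by `W`. -/
def ph (c s : ℕ) (W : List ℕ) (a : ℕ) : List ℕ :=
  if a = c then [3] else if a = 3 * s + 2 then W else []

theorem flat_not (c s : ℕ) (W : List ℕ) : ∀ l : List ℕ, 3 * s + 2 ∉ l →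
    l.flatMap (ph c s W) = List.replicate (l.count c) 3 := by
  intro l
  induction l with
  | nil => intro _; rfl
  | cons a l ih =>
    intro h
    rw [List.mem_cons, not_or] at h
    rw [List.flatMap_cons, ih h.2]
    by_cases hac : a = c
    · subst hac
      rw [List.count_cons_self, List.replicate_succ]
      unfold ph
      simp
    · rw [List.count_cons_of_ne hac]
      unfold ph
      rw [if_neg hac, if_neg (fun h' => h.1 h'.symm), List.nil_append]

theorem sep_notMem_bw (s : ℕ) (B : ℕ → List ℕ) : ∀ X : List ℕ, (∀ r ∈ X, SFr (B r)) → s ∉ X →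
    3 * s + 2 ∉ Bw X B := by
  intro X hB hs hm
  unfold Bw at hm
  rw [List.mem_flatMap] at hm
  obtain ⟨r, hr, hm⟩ := hm
  rw [List.mem_append, List.mem_singleton] at hm
  rcases hm with hm | hm
  · have := hB r hr _ hm
    omega
  · apply hs
    have : s = r := by omega
    rw [this]
    exact hr

theorem sep_notMem {l : List ℕ} (s : ℕ) (h : SFr l) : 3 * s + 2 ∉ l := by
  intro hm
  have := h _ hm
  omega

theorem flat_bw (c s : ℕ) (W : List ℕ) (hc : c % 3 ≠ 2) (B : ℕ → List ℕ) (X Y e : List ℕ)
    (hX : s ∉ X) (hY : s ∉ Y) (hB : ∀ r ∈ X ++ s :: Y, SFr (B r)) (he : SFr e) :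
    (Bw (X ++ s :: Y) B ++ e).flatMap (ph c s W) =
      List.replicate ((Bw X B).count c + (B s).count c) 3 ++
        (W ++ List.replicate ((Bw Y B ++ e).count c) 3) := by
  have e1 : Bw (X ++ s :: Y) B ++ e = Bw X B ++ (B s ++ (3 * s + 2) :: (Bw Y B ++ e)) := by
    unfold Bw
    rw [List.flatMap_append, List.flatMap_cons]
    simp only [List.append_assoc, List.cons_append, List.nil_append]
  rw [e1, List.flatMap_append, List.flatMap_append, List.flatMap_cons,
    flat_not c s W _ (sep_notMem_bw s B X (fun r hr => hB r (List.mem_append_left _ hr)) hX),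
    flat_not c s W _ (sep_notMem s (hB s (by simp))),
    flat_not c s W (Bw Y B ++ e) (by
      rw [List.mem_append, not_or]
      exact ⟨sep_notMem_bw s B Y (fun r hr => hB r (by simp [hr])) hY, sep_notMem s he⟩)]
  have e2 : ph c s W (3 * s + 2) = W := by
    unfold ph
    rw [if_neg (by omega), if_pos rfl]
  rw [e2, List.replicate_add, List.append_assoc]

theorem cnt_bw (c : ℕ) (hc : c % 3 ≠ 2) (B : ℕ → List ℕ) : ∀ X : List ℕ,
    (Bw X B).count c = (X.map fun q => (B q).count c).sum := by
  intro X
  induction X with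
  | nil => rfl
  | cons a X ih =>
    have e1 : Bw (a :: X) B = B a ++ ([3 * a + 2] ++ Bw X B) := by
      unfold Bw
      rw [List.flatMap_cons, List.append_assoc]
    rw [e1, List.count_append, List.count_append, ih, List.map_cons, List.sum_cons]
    have e2 : [3 * a + 2].count c = 0 := by
      rw [List.count_eq_zero, List.mem_singleton]
      omega
    omega

theorem sum_ite3 (r : ℕ) : ∀ X : List ℕ,
    (X.map fun q => if q = r then 3 else 0).sum = 3 * X.count r := by
  intro X
  induction X with
  | nil => rfl
  | cons a X ih =>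
    rw [List.map_cons, List.sum_cons, ih]
    by_cases h : a = r
    · subst h
      rw [if_pos rfl, List.count_cons_self]
      ring
    · rw [if_neg h, List.count_cons_of_ne h]
      ring

/-- The vector of a cube is kept. -/
theorem cube_key (ctx : CtxStmt) {β : FIC} (hS2 : S2 β) (hZZ : ZZ β) (hCB : ¬ CB β) (i j : ℕ)
    (hi : i = 0 ∨ i = 3) (hj : j ≤ 3)
    (h : ∀ W : List ℕ, RR β (List.replicate i 3 ++ (W ++ List.replicate (3 - i) 3))
      (List.replicate j 3 ++ (W ++ List.replicate (3 - j) 3))) : i = j := by
  by_contra hne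
  apply hCB
  unfold CB
  have hs2 := (ctx β).2.1 hS2
  rcases hi with rfl | rfl
  · obtain rfl | rfl | rfl : j = 1 ∨ j = 2 ∨ j = 3 := by omega
    · have h1 : RR β [0, 2, 0, 3, 3, 3] [3, 0, 2, 0, 3, 3] := h [0, 2, 0]
      have h2 : RR β [3, 0, 2, 3, 0, 3] [3, 0, 2, 0, 3, 3] :=
        (hs2 [3, 0, 2] [3] 0 3 (by simp) (by simp)).symm
      have h3 : RR β [3, 0, 2, 3, 3, 0] [3, 0, 2, 3, 0, 3] :=
        hZZ [] [2, 3] [] [] 3 0 (by intro a ha; simp at ha)
      have h4 : RR β [0, 2, 3, 3, 3, 0] [3, 0, 2, 3, 3, 0] := (h [0, 2]).append (RR.refl [0])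
      exact β.trans h1 (β.trans h2.symm (β.trans h3.symm h4.symm))
    · have h1 : RR β [0, 2, 0, 3, 3, 3] [3, 3, 0, 2, 0, 3] := h [0, 2, 0]
      have h3 : RR β [3, 3, 0, 2, 3, 0] [3, 3, 0, 2, 0, 3] :=
        hZZ [3] [2] [] [] 3 0 (by intro a ha; simp at ha)
      have h4 : RR β [0, 2, 3, 3, 3, 0] [3, 3, 0, 2, 3, 0] := (h [0, 2]).append (RR.refl [0])
      exact β.trans h1 (β.trans h3.symm h4.symm)
    · have h1 : RR β [0, 2, 0, 3, 3, 3] [0, 2, 3, 3, 3, 0] := (RR.refl [0, 2]).append (h [0])
      exact h1
  · obtain rfl | rfl | rfl : j = 0 ∨ j = 1 ∨ j = 2 := by omega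
    · have h1 : RR β [0, 2, 3, 3, 3, 0] [0, 2, 0, 3, 3, 3] := (RR.refl [0, 2]).append (h [0])
      exact h1.symm
    · have h1 : RR β [0, 2, 3, 3, 3, 0] [0, 2, 3, 0, 3, 3] := (RR.refl [0, 2]).append (h [0])
      have h2 : RR β [0, 2, 0, 3, 3, 3] [0, 2, 3, 0, 3, 3] :=
        hs2 [0, 2] [3, 3] 0 3 (by simp) (by simp)
      exact β.trans h2 h1.symm
    · have h1 : RR β [0, 2, 3, 3, 3, 0] [0, 2, 3, 3, 0, 3] := (RR.refl [0, 2]).append (h [0])
      have h2 : RR β [0, 2, 0, 3, 3, 3] [0, 2, 3, 0, 3, 3] :=
        hs2 [0, 2] [3, 3] 0 3 (by simp) (by simp)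
      have h3 : RR β [0, 2, 3, 0, 3, 3] [0, 2, 3, 3, 0, 3] :=
        hs2 [0, 2, 3] [3] 0 3 (by simp) (by simp)
      exact β.trans h2 (β.trans h3 h1.symm)

theorem flat_one (c : ℕ) : ∀ l : List ℕ,
    l.flatMap (fun a => if a = c then [0] else []) = List.replicate (l.count c) 0 := by
  intro l
  induction l with
  | nil => rfl
  | cons a l ih =>
    rw [List.flatMap_cons, ih]
    by_cases hac : a = c
    · subst hac
      rw [List.count_cons_self, List.replicate_succ]
      simp
    · rw [List.count_cons_of_ne hac]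
      simp [hac]

/-- The number of the occurrences is kept. -/
theorem cube_num (cpw : CpwStmt) {β : FIC} (hM : ModF β) (hI2 : Iso2 β) (hCB : ¬ CB β) (N : ℕ)
    (h : RR β (List.replicate 3 0) (List.replicate N 0)) : N = 3 := by
  by_contra hne
  obtain hlt | hgt : N ≤ 2 ∨ 4 ≤ N := by omega
  · obtain rfl | rfl | rfl : N = 0 ∨ N = 1 ∨ N = 2 := by omega
    · have h1 : RR β [0, 0] [0, 0, 0, 0, 0] := ((h.append (RR.refl [0, 0])).symm)
      have := hI2 _ h1
      simp at this
    · have h1 : RR β [0, 0] [0, 0, 0, 0] := ((h.append (RR.refl [0])).symm)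
      have := hI2 _ h1
      simp at this
    · have h1 : RR β [0, 0] [0, 0, 0] := h.symm
      have := hI2 _ h1
      simp at this
  · apply hCB
    unfold CB
    obtain ⟨k, hk⟩ := cpw.1 β hM hI2
    have h2 := cpw.2 β N (by omega) h 3 k le_rfl
    obtain ⟨m, hm⟩ : ∃ m, m = 3 + k * (N - 3) := ⟨_, rfl⟩
    rw [← hm] at h2
    have hkm : k ≤ m := by
      rw [hm]
      have : k * 1 ≤ k * (N - 3) := Nat.mul_le_mul_left _ (by omega)
      omega
    have h3 : RR β (List.replicate 3 3) (List.replicate m 3) := by
      have h4 := RR.sub (fun _ => [3]) h2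
      have e1 : ∀ n : ℕ, (List.replicate n 0).flatMap (fun _ : ℕ => [3]) = List.replicate n 3 := by
        intro n
        induction n with
        | zero => rfl
        | succ n ih => rw [List.replicate_succ, List.flatMap_cons, ih, List.replicate_succ]; rfl
      rwa [e1, e1] at h4
    have h5 : RR β [0, 2, 0, 3, 3, 3] ([0, 2, 0] ++ List.replicate m 3) :=
      (RR.refl [0, 2, 0]).append h3
    have h6 : RR β [0, 2, 3, 3, 3, 0] ([0, 2] ++ (List.replicate m 3 ++ [0])) :=
      (RR.refl [0, 2]).append (h3.append (RR.refl [0]))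
    have h7 := hk m hkm [0, 2] [0] [] 3
    simp only [List.append_nil] at h7
    exact β.trans h5 (β.trans h7.symm h6.symm)

/-- Row TY3. -/
theorem ty3 (cpw : CpwStmt) (ctx : CtxStmt) : Ty3Stmt := by
  intro β hM hI2 _ hS2 hZZ hCB R B B' e c r hR hB hB' he h hc hr hcount
  have hf : ∀ X : List ℕ, (∀ q ∈ X, q ∈ R) →
      (X.map fun q => (B q).count c).sum = 3 * X.count r := by
    intro X hX
    rw [← sum_ite3 r X]
    congr 1
    exact List.map_congr_left fun q hq => hcount q (hX q hq)
  have hRr : R.count r = 1 := List.count_eq_one_of_mem hR hr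
  have tot : (Bw R B).count c = 3 := by
    rw [cnt_bw c hc, hf R (fun q hq => hq), hRr]
  have h1 := RR.sub (fun a => if a = c then [0] else []) h
  rw [flat_one, flat_one, tot] at h1
  have hN := cube_num cpw hM hI2 hCB _ h1
  rw [List.count_append, cnt_bw c hc] at hN
  -- the vector
  have key : ∀ X q Y, R = X ++ q :: Y →
      (X.map fun q => (B' q).count c).sum + (B' q).count c = 3 * (X ++ [q]).count r := by
    intro X q Y hXY
    have hnd : (X ++ q :: Y).Nodup := by rw [← hXY]; exact hR
    have hqX : q ∉ X := by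
      intro hq
      have := (List.nodup_append.1 hnd).2.2 q hq q (by simp)
      exact this rfl
    have hqY : q ∉ Y := by
      have := (List.nodup_append.1 hnd).2.1
      exact (List.nodup_cons.1 this).1
    have hsub : ∀ W : List ℕ, RR β
        (List.replicate (3 * (X ++ [q]).count r) 3 ++
          (W ++ List.replicate (3 - 3 * (X ++ [q]).count r) 3))
        (List.replicate ((X.map fun q => (B' q).count c).sum + (B' q).count c) 3 ++
          (W ++ List.replicate (3 - ((X.map fun q => (B' q).count c).sum + (B' q).count c)) 3)) := by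
      intro W
      have h2 := RR.sub (ph c q W) h
      have h3 := flat_bw c q W hc B X Y [] hqX hqY (by rw [← hXY]; exact hB) (by
        intro a ha
        simp at ha)
      have h4 := flat_bw c q W hc B' X Y e hqX hqY (by rw [← hXY]; exact hB') he
      rw [List.append_nil, List.append_nil] at h3
      rw [← hXY] at h3 h4
      rw [h3, h4, cnt_bw c hc, cnt_bw c hc, cnt_bw c hc] at h2
      have e1 : (X.map fun q => (B q).count c).sum + (B q).count c = 3 * (X ++ [q]).count r := by
        rw [← hf (X ++ [q]) (by
          intro a ha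
          rw [hXY]
          rw [List.mem_append, List.mem_singleton] at ha
          rcases ha with ha | ha
          · simp [ha]
          · simp [ha])]
        simp
      have e2 : (Y.map fun q => (B q).count c).sum = 3 - 3 * (X ++ [q]).count r := by
        rw [hf Y (by
          intro a ha
          rw [hXY]
          simp [ha])]
        have e3 : R.count r = (X ++ [q]).count r + Y.count r := by
          rw [hXY, ← List.count_append]
          simp
        omega
      have e4 : (Bw Y B' ++ e).count c =
          3 - ((X.map fun q => (B' q).count c).sum + (B' q).count c) := by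
        rw [List.count_append, cnt_bw c hc]
        rw [hXY, List.map_append, List.sum_append, List.map_cons, List.sum_cons] at hN
        omega
      rw [e1, e2, e4] at h2
      exact h2
    have hle : (X ++ [q]).count r ≤ 1 := by
      rw [← hRr, hXY]
      have : X ++ q :: Y = (X ++ [q]) ++ Y := by simp
      rw [this, List.count_append (l₁ := X ++ [q])]
      omega
    have hj : (X.map fun q => (B' q).count c).sum + (B' q).count c ≤ 3 := by
      rw [hXY, List.map_append, List.sum_append, List.map_cons, List.sum_cons] at hN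
      omega
    exact (cube_key ctx hS2 hZZ hCB _ _ (by omega) hj hsub).symm
  have pre : ∀ X Y, R = X ++ Y → (X.map fun q => (B' q).count c).sum = 3 * X.count r := by
    intro X Y hXY
    rcases List.eq_nil_or_concat X with rfl | ⟨X', q, rfl⟩
    · simp
    · have h2 := key X' q Y (by rw [hXY]; simp)
      rw [List.concat_eq_append, ← h2]
      simp
  constructor
  · intro q hq
    obtain ⟨X, Y, hXY⟩ := List.append_of_mem hq
    have h2 := key X q Y hXY
    have h3 := pre X (q :: Y) hXY
    rw [List.count_append] at h2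
    by_cases hqr : q = r
    · subst hqr
      rw [if_pos rfl]
      rw [List.count_singleton_self] at h2
      omega
    · rw [if_neg hqr]
      have : [q].count r = 0 := by
        rw [List.count_eq_zero, List.mem_singleton]
        exact fun h => hqr h.symm
      omega
  · have h2 := pre R [] (by simp)
    rw [hRr] at h2
    omega

end Pool.Agent.MVD.H27
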